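import Mathlib
import Pool.Agent.H.MP_9d555c_an.B

set_option autoImplicit false

namespace Pool.Agent.Results.MP_9d555c_an.Yes

open MeasureTheory Filter Topology
open scoped ENNReal

/-- `g` is the almost everywhere principal value `K f` for the kernel `Ω(z/|z|)/|z|^n`. -/
def IsPV {n : ℕ} (Ω : EuclideanSpace ℝ (Fin n) → ℂ) (f : EuclideanSpace ℝ (Fin n) → ℝ)
    (g : EuclideanSpace ℝ (Fin n) → ℂ) : Prop :=
  ∀ᵐ x, Tendsto (fun ε : ℝ => ∫ y in {y | ε < ‖x - y‖},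
    Ω (‖x - y‖⁻¹ • (x - y)) / (‖x - y‖ ^ n : ℝ) * f y) (𝓝[>] 0) (𝓝 (g x))

/-- `‖K f - e^{-β} K (e^β f)‖₂ ≤ δ ‖f‖₂` for bounded compactly supported `f` with `e^β f`
integrable. -/
def ConjBound {n : ℕ} (Ω : EuclideanSpace ℝ (Fin n) → ℂ) (β : EuclideanSpace ℝ (Fin n) → ℝ)
    (δ : ℝ) : Prop :=
  ∀ f : EuclideanSpace ℝ (Fin n) → ℝ, Measurable f → (∃ M, ∀ x, |f x| ≤ M) →
    HasCompactSupport f → Integrable (fun y => Real.exp (β y) * f y) →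
    ∃ g h : EuclideanSpace ℝ (Fin n) → ℂ, IsPV Ω f g ∧ IsPV Ω (fun y => Real.exp (β y) * f y) h ∧
      eLpNorm (fun x => g x - Real.exp (-β x) * h x) 2 volume ≤
        ENNReal.ofReal δ * eLpNorm f 2 volume

/-- The cube with lowest corner `a` and side `r`. -/
def cube {n : ℕ} (a : EuclideanSpace ℝ (Fin n)) (r : ℝ) : Set (EuclideanSpace ℝ (Fin n)) :=
  {x | ∀ i, a i ≤ x i ∧ x i ≤ a i + r}

/-- The BMO seminorm. -/
noncomputable def bmo {n : ℕ} (β : EuclideanSpace ℝ (Fin n) → ℝ) : ℝ≥0∞ :=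
  ⨆ (a : EuclideanSpace ℝ (Fin n)) (r : ℝ) (_ : 0 < r),
    ⨍⁻ x in cube a r, ‖β x - ⨍ y in cube a r, β y‖ₑ ∂volume

theorem result (n : ℕ) (Ω : EuclideanSpace ℝ (Fin n) → ℂ)
    (hΩ : ContinuousOn Ω (Metric.sphere 0 1))
    (hne : ∃ θ ∈ Metric.sphere (0 : EuclideanSpace ℝ (Fin n)) 1, Ω θ ≠ 0) (ε : ℝ) (hε : 0 < ε) :
    ∃ δ : ℝ, 0 < δ ∧ ∀ β : EuclideanSpace ℝ (Fin n) → ℝ, LocallyIntegrable β →
      ConjBound Ω β δ → bmo β < ENNReal.ofReal ε :=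
  H.MP_9d555c_an.main Ω hΩ hne hε

end Pool.Agent.Results.MP_9d555c_an.Yes
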